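import Mathlib

set_option autoImplicit false
open scoped Classical

namespace Pool.Agent.NS40.Wrap

theorem transport {V W : Type} (H : SimpleGraph W) (G : SimpleGraph V)
    (hi : ∀ v, ∃ w, H.Adj v w) (G' : G.Subgraph) (w : V)
    (hv : ∀ x, x ∈ G'.verts ↔ x ≠ w) (ha : ∀ x y, x ≠ w → y ≠ w → G.Adj x y → G'.Adj x y)
    (g : V → G'.verts) (hg : ∀ x (hx : x ∈ G'.verts), g x = ⟨x, hx⟩)
    (c0 : Sym2 G'.verts → Fin 2) (i : Fin 2)
    (h : H.IsContained (SimpleGraph.fromEdgeSet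
      {e | e ∈ G.edgeSet ∧ w ∉ e ∧ c0 (Sym2.map g e) = i})) :
    H.IsContained (SimpleGraph.fromEdgeSet {e | e ∈ G'.coe.edgeSet ∧ c0 e = i}) := by
  obtain ⟨φ⟩ := h
  have key : ∀ x y, H.Adj x y → G.Adj (φ x) (φ y) ∧ w ≠ φ x ∧ w ≠ φ y ∧
      c0 s(g (φ x), g (φ y)) = i := by
    intro x y hxy
    have h1 := φ.toHom.map_adj hxy
    rw [SimpleGraph.fromEdgeSet_adj] at h1
    obtain ⟨⟨h2, h3, h4⟩, -⟩ := h1
    refine ⟨h2, ?_, ?_, h4⟩
    · intro he
      exact h3 (Sym2.mem_iff.2 (Or.inl he))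
    · intro he
      exact h3 (Sym2.mem_iff.2 (Or.inr he))
  have hne : ∀ x, φ x ≠ w := by
    intro x
    obtain ⟨y, hy⟩ := hi x
    exact fun he => (key x y hy).2.1 he.symm
  have hgv : ∀ x, ((g (φ x) : G'.verts) : V) = φ x := by
    intro x
    rw [hg (φ x) ((hv _).2 (hne x))]
  have hinj : Function.Injective (fun x => g (φ x)) := by
    intro x y hxy
    have h1 : ((g (φ x) : G'.verts) : V) = g (φ y) := congrArg Subtype.val hxy
    rw [hgv, hgv] at h1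
    exact φ.injective h1
  refine ⟨⟨⟨fun x => g (φ x), ?_⟩, hinj⟩⟩
  intro x y hxy
  obtain ⟨h1, h2, h3, h4⟩ := key x y hxy
  rw [SimpleGraph.fromEdgeSet_adj]
  refine ⟨⟨?_, h4⟩, fun he => hxy.ne (hinj he)⟩
  rw [SimpleGraph.mem_edgeSet, SimpleGraph.Subgraph.coe_adj, hgv, hgv]
  exact ha _ _ (hne x) (hne y) h1

theorem wrap {W : Type} [Fintype W] [Nonempty W] (H : SimpleGraph W)
    (hc : H.Colorable 2) (hi : ∀ v, ∃ w, H.Adj v w)
    (leaf : ∃ a b, ∀ x, H.Adj a x ↔ x = b)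
    (closed : ∀ (V : Type) [Fintype V] (G : SimpleGraph V) (w v : V),
      (∀ x, G.Adj w x ↔ x = v) → ∀ c : Sym2 V → Fin 2,
      (∀ i, ¬ H.IsContained (SimpleGraph.fromEdgeSet
        {e | e ∈ G.edgeSet ∧ w ∉ e ∧ c e = i})) →
      ∃ c' : Sym2 V → Fin 2, ∀ i, ¬ H.IsContained
        (SimpleGraph.fromEdgeSet {e | e ∈ G.edgeSet ∧ c' e = i})) :
    ¬ (∀ (n : ℕ) (H : SimpleGraph (Fin n)), 0 < n → H.Colorable 2 → (∀ v, ∃ w, H.Adj v w) →
      (∃ (V : Type) (_ : Fintype V) (G : SimpleGraph V),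
        (∀ c : Sym2 V → Fin 2, ∃ i : Fin 2,
          H.IsContained (SimpleGraph.fromEdgeSet {e | e ∈ G.edgeSet ∧ c e = i})) ∧
        (∀ G' : G.Subgraph, G' ≠ ⊤ →
          ¬ ∀ c : Sym2 G'.verts → Fin 2, ∃ i : Fin 2,
            H.IsContained (SimpleGraph.fromEdgeSet {e | e ∈ G'.coe.edgeSet ∧ c e = i})) ∧
        G.minDegree = 2 * H.minDegree - 1) ∧
      (∀ (V : Type) (_ : Fintype V) (G : SimpleGraph V),
        (∀ c : Sym2 V → Fin 2, ∃ i : Fin 2,
          H.IsContained (SimpleGraph.fromEdgeSet {e | e ∈ G.edgeSet ∧ c e = i})) →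
        (∀ G' : G.Subgraph, G' ≠ ⊤ →
          ¬ ∀ c : Sym2 G'.verts → Fin 2, ∃ i : Fin 2,
            H.IsContained (SimpleGraph.fromEdgeSet {e | e ∈ G'.coe.edgeSet ∧ c e = i})) →
        2 * H.minDegree - 1 ≤ G.minDegree)) := by
  intro hall
  obtain ⟨H', ⟨iso⟩⟩ : ∃ H' : SimpleGraph (Fin (Fintype.card W)), Nonempty (H ≃g H') :=
    ⟨H.map (Fintype.equivFin W).toEmbedding, ⟨SimpleGraph.Iso.map (Fintype.equivFin W) H⟩⟩
  have hadj : ∀ x y, H'.Adj (iso x) (iso y) ↔ H.Adj x y := fun x y => iso.map_adj_iff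
  have hc' : H'.Colorable 2 := by
    obtain ⟨C⟩ := hc
    exact ⟨C.comp iso.symm.toHom⟩
  have hi' : ∀ v, ∃ w, H'.Adj v w := by
    intro v
    obtain ⟨x, rfl⟩ := iso.surjective v
    obtain ⟨y, hy⟩ := hi x
    exact ⟨iso y, (hadj x y).2 hy⟩
  obtain ⟨⟨V, iV, G, hR, hM, hd⟩, -⟩ := hall _ H' Fintype.card_pos hc' hi'
  have hne : Nonempty (Fin (Fintype.card W)) := ⟨iso (Classical.arbitrary W)⟩
  have hmin : H'.minDegree = 1 := by
    obtain ⟨a, b, hab⟩ := leaf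
    apply le_antisymm
    · have h1 : H'.degree (iso a) = 1 := by
        rw [SimpleGraph.degree_eq_one_iff_existsUnique_adj]
        refine ⟨iso b, (hadj a b).2 ((hab b).2 rfl), ?_⟩
        intro y hy
        obtain ⟨z, rfl⟩ := iso.surjective y
        rw [(hab z).1 ((hadj a z).1 hy)]
      rw [← h1]
      exact H'.minDegree_le_degree (iso a)
    · apply SimpleGraph.le_minDegree_of_forall_le_degree
      intro v
      obtain ⟨x, hx⟩ := hi' v
      exact (SimpleGraph.degree_pos_iff_exists_adj _ _).2 ⟨x, hx⟩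
  rw [hmin] at hd
  have hd1 : G.minDegree = 1 := hd
  have hV : Nonempty V := by
    rcases isEmpty_or_nonempty V with hE | hE
    · exfalso
      rw [SimpleGraph.minDegree_of_isEmpty] at hd1
      exact absurd hd1 (by norm_num)
    · exact hE
  obtain ⟨w, hw⟩ := G.exists_minimal_degree_vertex
  rw [hd1] at hw
  obtain ⟨v, hwv, hvu⟩ := SimpleGraph.degree_eq_one_iff_existsUnique_adj.1 hw.symm
  have hwx : ∀ x, G.Adj w x ↔ x = v := fun x => ⟨fun h => hvu x h, fun h => by rw [h]; exact hwv⟩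
  let G' : G.Subgraph := (⊤ : G.Subgraph).deleteVerts {w}
  have hv' : ∀ x, x ∈ G'.verts ↔ x ≠ w := by
    intro x
    simp [G']
  have ha' : ∀ x y, x ≠ w → y ≠ w → G.Adj x y → G'.Adj x y := by
    intro x y hx hy hxy
    simp [G', hx, hy, hxy]
  have hne' : G' ≠ ⊤ := by
    intro h
    have h1 : w ∈ G'.verts := by rw [h]; trivial
    exact (hv' w).1 h1 rfl
  have hMM := hM G' hne'
  rw [not_forall] at hMM
  obtain ⟨c0, hc0⟩ := hMM
  rw [not_exists] at hc0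
  have hvm : v ∈ G'.verts := (hv' v).2 hwv.ne'
  let g : V → G'.verts := fun x => if h : x ∈ G'.verts then ⟨x, h⟩ else ⟨v, hvm⟩
  have hg : ∀ x (hx : x ∈ G'.verts), g x = ⟨x, hx⟩ := by
    intro x hx
    exact dif_pos hx
  obtain ⟨c', hc''⟩ := closed V G w v hwx (fun e => c0 (Sym2.map g e)) (by
    intro i hcon
    have h1 := transport H G hi G' w hv' ha' g hg c0 i hcon
    exact hc0 i (iso.symm.isContained.trans h1))
  obtain ⟨i, hi2⟩ := hR c'
  exact hc'' i (iso.isContained.trans hi2)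

end Pool.Agent.NS40.Wrap
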