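import Mathlib

set_option autoImplicit false
open scoped Classical

namespace Pool.Agent.NS40.Core80

/-- a family of disjoint four-cycles -/
def Fam {V : Type} (A : SimpleGraph V) {k : ℕ} (F : Fin (k + 1) × Bool × Bool → V) : Prop :=
  Function.Injective F ∧ ∀ m y y', A.Adj (F (m, false, y)) (F (m, true, y'))

theorem struct {V : Type} [Fintype V] (A : SimpleGraph V) (k : ℕ) (_hk : 1 ≤ k)
    (F : Fin (k + 1) × Bool × Bool → V) (hF : Fam A F)
    (hcl : ∀ F' : Fin (k + 1) × Bool × Bool → V, Fam A F' → ∀ p z, (∀ q, F' q ≠ z) →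
      ¬ A.Adj (F' p) z) :
    ∃ X : Finset V, X.card ≤ 4 * (k + 1) ∧ (∀ x ∈ X, ∀ y, y ∉ X → ¬ A.Adj x y) ∧
      (∀ a1 a2 b1 b2 b3 : V, a1 ≠ a2 → b1 ≠ b2 → b1 ≠ b3 → b2 ≠ b3 → a1 ∉ X → a2 ∉ X →
        b1 ∉ X → b2 ∉ X → b3 ∉ X → A.Adj a1 b1 → A.Adj a1 b2 → A.Adj a1 b3 →
        A.Adj a2 b1 → A.Adj a2 b2 → A.Adj a2 b3 → False) := by
  -- replacement of one cycle by another one
  have hrep : ∀ (m : Fin (k + 1)) (D : Bool × Bool → V), Function.Injective D →
      (∀ y y', A.Adj (D (false, y)) (D (true, y'))) →
      (∀ q m' q', m' ≠ m → D q ≠ F (m', q')) →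
      Fam A (fun p : Fin (k + 1) × Bool × Bool => if p.1 = m then D p.2 else F p) := by
    intro m D hD1 hD2 hD3
    constructor
    · rintro ⟨m1, q1⟩ ⟨m2, q2⟩ h
      simp only at h
      by_cases h1 : m1 = m
      · by_cases h2 : m2 = m
        · rw [if_pos h1, if_pos h2] at h
          rw [h1, h2, hD1 h]
        · rw [if_pos h1, if_neg h2] at h
          exact absurd h (hD3 _ _ _ h2)
      · by_cases h2 : m2 = m
        · rw [if_neg h1, if_pos h2] at h
          exact absurd h.symm (hD3 _ _ _ h1)
        · rw [if_neg h1, if_neg h2] at h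
          exact hF.1 h
    · intro m1 y y'
      simp only
      by_cases h1 : m1 = m
      · rw [if_pos h1, if_pos h1]
        exact hD2 y y'
      · rw [if_neg h1, if_neg h1]
        exact hF.2 m1 y y'
  by_cases hC : ∃ D : Bool × Bool → V, Function.Injective D ∧
      (∀ y y', A.Adj (D (false, y)) (D (true, y'))) ∧ (∀ q p, D q ≠ F p)
  · obtain ⟨D, hD1, hD2, hD3⟩ := hC
    refine ⟨∅, by simp, by simp, ?_⟩
    intro a1 a2 b1 b2 b3 ha hb12 hb13 hb23 _ _ _ _ _ h11 h12 h13 h21 h22 h23
    have hFF : ∀ m1 q1 m2 q2, m1 ≠ m2 → ¬ A.Adj (F (m1, q1)) (F (m2, q2)) := by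
      intro m1 q1 m2 q2 hne hadj
      have h1 := hcl _ (hrep m2 D hD1 hD2 (fun q m' q' _ => hD3 q (m', q'))) (m1, q1)
        (F (m2, q2)) (by
          rintro ⟨m3, q3⟩ h
          simp only at h
          by_cases h3 : m3 = m2
          · rw [if_pos h3] at h
            exact hD3 _ _ h
          · rw [if_neg h3] at h
            have h4 := hF.1 h
            exact h3 (congrArg Prod.fst h4))
      simp only [if_neg hne] at h1
      exact h1 hadj
    have hin : ∀ m q z, A.Adj (F (m, q)) z → ∃ q', z = F (m, q') := by
      intro m q z hz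
      by_contra hno
      by_cases h1 : ∃ p, F p = z
      · obtain ⟨⟨m2, q2⟩, rfl⟩ := h1
        by_cases h2 : m = m2
        · subst h2
          exact hno ⟨q2, rfl⟩
        · exact hFF m q m2 q2 h2 hz
      · exact hcl F hF (m, q) z (fun p hp => h1 ⟨p, hp⟩) hz
    by_cases hx : ∃ m q, a1 = F (m, q)
    · obtain ⟨m, q, rfl⟩ := hx
      obtain ⟨q1, hq1⟩ := hin m q b1 h11
      obtain ⟨q2, hq2⟩ := hin m q b2 h12
      obtain ⟨q3, hq3⟩ := hin m q b3 h13
      obtain ⟨q4, hq4⟩ := hin m q1 a2 (by rw [← hq1]; exact h21.symm)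
      have hcard : ({F (m, q), a2, b1, b2, b3} : Finset V).card = 5 := by
        rw [Finset.card_insert_of_notMem, Finset.card_insert_of_notMem,
          Finset.card_insert_of_notMem, Finset.card_insert_of_notMem, Finset.card_singleton]
        · simp [hb23]
        · simp [hb12, hb13]
        · simp [h21.ne, h22.ne, h23.ne]
        · simp [ha, h11.ne, h12.ne, h13.ne]
      have hsub : ({F (m, q), a2, b1, b2, b3} : Finset V) ⊆
          (Finset.univ : Finset (Bool × Bool)).image (fun q => F (m, q)) := by
        intro z hz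
        rw [Finset.mem_image]
        simp only [Finset.mem_insert, Finset.mem_singleton] at hz
        rcases hz with rfl | rfl | rfl | rfl | rfl
        · exact ⟨q, Finset.mem_univ _, rfl⟩
        · exact ⟨q4, Finset.mem_univ _, hq4.symm⟩
        · exact ⟨q1, Finset.mem_univ _, hq1.symm⟩
        · exact ⟨q2, Finset.mem_univ _, hq2.symm⟩
        · exact ⟨q3, Finset.mem_univ _, hq3.symm⟩
      have h5 := Finset.card_le_card hsub
      have h6 := Finset.card_image_le (s := (Finset.univ : Finset (Bool × Bool)))
        (f := fun q => F (m, q))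
      have h7 : (Finset.univ : Finset (Bool × Bool)).card = 4 := rfl
      omega
    · have hout : ∀ z z', (∀ p, F p ≠ z) → A.Adj z z' → ∀ p, F p ≠ z' := by
        intro z z' hz hzz p hp
        exact hcl F hF p z hz (by rw [hp]; exact hzz.symm)
      have ha1 : ∀ p, F p ≠ a1 := by
        rintro ⟨m, q⟩ h
        exact hx ⟨m, q, h.symm⟩
      have hb1 := hout _ _ ha1 h11
      have hb2 := hout _ _ ha1 h12
      have hb3 := hout _ _ ha1 h13
      have ha2 := hout _ _ hb1 h21.symm
      let E : Bool × Bool → V := fun q =>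
        if q.1 then (if q.2 then b2 else b1) else (if q.2 then a2 else a1)
      have hE1 : Function.Injective E := by
        have e1 := h11.ne
        have e2 := h12.ne
        have e3 := h21.ne
        have e4 := h22.ne
        rintro ⟨x, y⟩ ⟨x', y'⟩ h
        cases x <;> cases y <;> cases x' <;> cases y' <;> simp [E] at h ⊢ <;>
          first
            | exact ha h | exact ha h.symm | exact hb12 h | exact hb12 h.symm
            | exact e1 h | exact e1 h.symm | exact e2 h | exact e2 h.symm
            | exact e3 h | exact e3 h.symm | exact e4 h | exact e4 h.symm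
      have hE2 : ∀ y y', A.Adj (E (false, y)) (E (true, y')) := by
        intro y y'
        cases y <;> cases y' <;> simp only [E] <;> assumption
      have hE3 : ∀ q p, E q ≠ F p := by
        rintro ⟨x, y⟩ p
        cases x <;> cases y <;> simp only [E]
        · exact (ha1 p).symm
        · exact (ha2 p).symm
        · exact (hb1 p).symm
        · exact (hb2 p).symm
      have h1 := hcl _ (hrep 0 E hE1 hE2 (fun q m' q' _ => hE3 q (m', q'))) (0, false, false)
        b3 (by
          rintro ⟨m3, ⟨x, y⟩⟩ h
          simp only at h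
          by_cases h3 : m3 = 0
          · rw [if_pos h3] at h
            cases x <;> cases y <;> simp only [E] at h
            · exact h13.ne h
            · exact h23.ne h
            · exact hb13 h
            · exact hb23 h
          · rw [if_neg h3] at h
            exact hb3 _ h)
      simp only [if_true] at h1
      exact h1 h13
  · refine ⟨Finset.univ.image F, ?_, ?_, ?_⟩
    · refine Finset.card_image_le.trans ?_
      simp only [Finset.card_univ, Fintype.card_prod, Fintype.card_fin, Fintype.card_bool]
      omega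
    · intro x hx y hy
      rw [Finset.mem_image] at hx
      obtain ⟨p, -, rfl⟩ := hx
      apply hcl F hF
      intro q hq
      exact hy (Finset.mem_image.2 ⟨q, Finset.mem_univ _, hq⟩)
    · intro a1 a2 b1 b2 b3 ha hb12 hb13 hb23 ha1 ha2 hb1 hb2 hb3 h11 h12 h13 h21 h22 h23
      apply hC
      have key : ∀ z, z ∉ Finset.univ.image F → ∀ p, z ≠ F p := by
        intro z hz p hp
        exact hz (Finset.mem_image.2 ⟨p, Finset.mem_univ _, hp.symm⟩)
      refine ⟨fun q => if q.1 then (if q.2 then b2 else b1) else (if q.2 then a2 else a1),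
        ?_, ?_, ?_⟩
      · have e1 := h11.ne
        have e2 := h12.ne
        have e3 := h21.ne
        have e4 := h22.ne
        rintro ⟨x, y⟩ ⟨x', y'⟩ h
        cases x <;> cases y <;> cases x' <;> cases y' <;> simp at h ⊢ <;>
          first
            | exact ha h | exact ha h.symm | exact hb12 h | exact hb12 h.symm
            | exact e1 h | exact e1 h.symm | exact e2 h | exact e2 h.symm
            | exact e3 h | exact e3 h.symm | exact e4 h | exact e4 h.symm
      · intro y y'
        cases y <;> cases y' <;> simp <;> assumption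
      · rintro ⟨x, y⟩ p
        cases x <;> cases y <;> simp
        · exact key _ ha1 p
        · exact key _ ha2 p
        · exact key _ hb1 p
        · exact key _ hb2 p

end Pool.Agent.NS40.Core80
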