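import Pool.Agent.Helper80_NS.Core1

set_option autoImplicit false
open scoped Classical

namespace Pool.Agent.NS40.Core80

/-- vertex type of the graph `H`: complete bipartite part, four-cycles, one leaf -/
abbrev HW (t k : ℕ) : Type := (Bool × Fin t) ⊕ (Fin (k + 1) × Bool × Bool) ⊕ Unit

/-- adjacency of `H` -/
def adjH (t k : ℕ) : HW t k → HW t k → Prop
  | .inl p, .inl q => p.1 ≠ q.1
  | .inr (.inl p), .inr (.inl q) => p.1 = q.1 ∧ p.2.1 ≠ q.2.1
  | .inr (.inr _), .inr (.inl q) => q = (0, false, false)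
  | .inr (.inl q), .inr (.inr _) => q = (0, false, false)
  | _, _ => False

/-- the graph `H = K_(t,t) + k C_4 + banner` -/
def HG (t k : ℕ) : SimpleGraph (HW t k) where
  Adj := adjH t k
  symm := by
    constructor
    rintro (p | (p | p)) (q | (q | q)) h
    · exact fun he => h he.symm
    · exact h
    · exact h
    · exact h
    · exact ⟨h.1.symm, fun he => h.2 he.symm⟩
    · exact h
    · exact h
    · exact h
    · exact h
  loopless := by
    constructor
    rintro (p | (p | p)) h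
    · exact h rfl
    · exact h.2 rfl
    · exact h

theorem HG_inl {t k : ℕ} (p q : Bool × Fin t) :
    (HG t k).Adj (.inl p) (.inl q) ↔ p.1 ≠ q.1 := Iff.rfl

theorem HG_cyc {t k : ℕ} (p q : Fin (k + 1) × Bool × Bool) :
    (HG t k).Adj (.inr (.inl p)) (.inr (.inl q)) ↔ p.1 = q.1 ∧ p.2.1 ≠ q.2.1 := Iff.rfl

theorem HG_leaf {t k : ℕ} (q : Fin (k + 1) × Bool × Bool) :
    (HG t k).Adj (.inr (.inr ())) (.inr (.inl q)) ↔ q = (0, false, false) := Iff.rfl

theorem HG_colorable (t k : ℕ) : (HG t k).Colorable 2 := by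
  let C : (HG t k).Coloring Bool := SimpleGraph.Coloring.mk
    (fun x : HW t k => match x with
      | .inl p => p.1
      | .inr (.inl p) => p.2.1
      | .inr (.inr _) => true) (by
    rintro (p | (p | p)) (q | (q | q)) h
    · exact h
    · exact absurd h id
    · exact absurd h id
    · exact absurd h id
    · exact h.2
    · have h' : p = (0, false, false) := h
      subst h'
      simp
    · exact absurd h id
    · have h' : q = (0, false, false) := h
      subst h'
      simp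
    · exact absurd h id)
  exact C.colorable

theorem HG_iso (t k : ℕ) : ∀ v, ∃ w, (HG t k).Adj v w := by
  rintro (p | (p | p))
  · exact ⟨.inl (!p.1, p.2), by rw [HG_inl]; simp⟩
  · exact ⟨.inr (.inl (p.1, !p.2.1, p.2.2)), by rw [HG_cyc]; simp⟩
  · exact ⟨.inr (.inl (0, false, false)), rfl⟩

theorem HG_leaf_ex (t k : ℕ) : ∃ a b, ∀ x, (HG t k).Adj a x ↔ x = b := by
  refine ⟨.inr (.inr ()), .inr (.inl (0, false, false)), ?_⟩
  rintro (q | (q | q))
  · exact ⟨fun h => absurd h id, fun h => by simp at h⟩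
  · rw [HG_leaf]
    constructor
    · rintro rfl
      rfl
    · intro h
      exact Sum.inl_injective (Sum.inr_injective h)
  · exact ⟨fun h => absurd h id, fun h => by simp at h⟩

/-- edges of colour `j` not at `w` -/
def RG {V : Type} (G : SimpleGraph V) (w : V) (c : Sym2 V → Fin 2) (j : Fin 2) : SimpleGraph V :=
  SimpleGraph.fromEdgeSet {e | e ∈ G.edgeSet ∧ w ∉ e ∧ c e = j}

theorem RG_adj {V : Type} (G : SimpleGraph V) (w : V) (c : Sym2 V → Fin 2) (j : Fin 2) (x y : V) :
    (RG G w c j).Adj x y ↔ G.Adj x y ∧ w ≠ x ∧ w ≠ y ∧ c s(x, y) = j := by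
  unfold RG
  rw [SimpleGraph.fromEdgeSet_adj]
  constructor
  · rintro ⟨⟨h1, h2, h3⟩, -⟩
    rw [Sym2.mem_iff, not_or] at h2
    exact ⟨h1, h2.1, h2.2, h3⟩
  · rintro ⟨h1, h2, h3, h4⟩
    refine ⟨⟨h1, ?_, h4⟩, h1.ne⟩
    rw [Sym2.mem_iff, not_or]
    exact ⟨h2, h3⟩

theorem data (t k : ℕ) (ht : 2 ≤ t) {V : Type} (G : SimpleGraph V) (w v : V)
    (hw : ∀ x, G.Adj w x ↔ x = v) (c : Sym2 V → Fin 2)
    (hfree : ∀ i, ¬ (HG t k).IsContained (RG G w c i))
    (hR : ∀ c' : Sym2 V → Fin 2, ∃ i, (HG t k).IsContained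
      (SimpleGraph.fromEdgeSet {e | e ∈ G.edgeSet ∧ c' e = i})) (j : Fin 2) :
    ∃ (P : Bool × Fin t → V) (F : Fin (k + 1) × Bool × Bool → V),
      Function.Injective P ∧ (∀ p q, P p ≠ F q) ∧
      (∀ a b, (RG G w c j).Adj (P (false, a)) (P (true, b))) ∧ Fam (RG G w c j) F := by
  obtain ⟨i, ⟨φ⟩⟩ := hR (fun e => if w ∈ e then j else c e)
  have hφ : ∀ x y, (HG t k).Adj x y → G.Adj (φ x) (φ y) ∧
      (if w ∈ s(φ x, φ y) then j else c s(φ x, φ y)) = i := by
    intro x y hxy
    have h1 := φ.toHom.map_adj hxy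
    rw [SimpleGraph.fromEdgeSet_adj] at h1
    exact ⟨h1.1.1, h1.1.2⟩
  have hstep : ∀ x y, (HG t k).Adj x y → φ x ≠ w → φ y ≠ w → (RG G w c i).Adj (φ x) (φ y) := by
    intro x y hxy hx hy
    obtain ⟨h1, h2⟩ := hφ x y hxy
    rw [RG_adj]
    refine ⟨h1, hx.symm, hy.symm, ?_⟩
    rw [if_neg] at h2
    · exact h2
    · rw [Sym2.mem_iff, not_or]
      exact ⟨hx.symm, hy.symm⟩
  have hz : ∃ z, φ z = w := by
    by_contra hno
    rw [not_exists] at hno
    exact hfree i ⟨⟨⟨φ, fun {x y} hxy => hstep x y hxy (hno x) (hno y)⟩, φ.injective⟩⟩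
  obtain ⟨z, hz⟩ := hz
  have hij : i = j := by
    obtain ⟨y, hy⟩ := HG_iso t k z
    obtain ⟨-, h2⟩ := hφ z y hy
    rw [if_pos] at h2
    · exact h2.symm
    · rw [Sym2.mem_iff]
      exact Or.inl hz.symm
  subst hij
  have hN : ∀ y1 y2, (HG t k).Adj z y1 → (HG t k).Adj z y2 → y1 = y2 := by
    intro y1 y2 h1 h2
    have h3 := (hφ z y1 h1).1
    have h4 := (hφ z y2 h2).1
    rw [hz, hw] at h3 h4
    exact φ.injective (h3.trans h4.symm)
  have hzl : z = .inr (.inr ()) := by
    rcases z with p | (p | p)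
    · exfalso
      have h1 := hN (.inl (!p.1, ⟨0, by omega⟩)) (.inl (!p.1, ⟨1, by omega⟩))
        (by rw [HG_inl]; simp) (by rw [HG_inl]; simp)
      simp at h1
    · exfalso
      have h1 := hN (.inr (.inl (p.1, !p.2.1, false))) (.inr (.inl (p.1, !p.2.1, true)))
        (by rw [HG_cyc]; simp) (by rw [HG_cyc]; simp)
      simp at h1
    · rfl
  have hnw : ∀ x, x ≠ .inr (.inr ()) → φ x ≠ w := by
    intro x hx he
    apply hx
    rw [← hzl]
    exact φ.injective (he.trans hz.symm)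
  refine ⟨fun p => φ (.inl p), fun p => φ (.inr (.inl p)), ?_, ?_, ?_, ?_, ?_⟩
  · intro p q h
    exact Sum.inl_injective (φ.injective h)
  · intro p q h
    have h1 := φ.injective h
    simp at h1
  · intro a b
    exact hstep _ _ (by rw [HG_inl]; simp) (hnw _ (by simp)) (hnw _ (by simp))
  · intro p q h
    exact Sum.inl_injective (Sum.inr_injective (φ.injective h))
  · intro m y y'
    exact hstep _ _ (by rw [HG_cyc]; simp) (hnw _ (by simp)) (hnw _ (by simp))

/-- the graph outside a set -/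
def out {V : Type} (R : SimpleGraph V) (S : Set V) : SimpleGraph V where
  Adj x y := R.Adj x y ∧ x ∉ S ∧ y ∉ S
  symm := ⟨fun _ _ h => ⟨h.1.symm, h.2.2, h.2.1⟩⟩
  loopless := ⟨fun x h => h.1.ne rfl⟩

theorem hcl_of_free (t k : ℕ) {V : Type} (R : SimpleGraph V)
    (hfree : ¬ (HG t k).IsContained R) (P : Bool × Fin t → V) (hP : Function.Injective P)
    (hPa : ∀ a b, R.Adj (P (false, a)) (P (true, b)))
    (F' : Fin (k + 1) × Bool × Bool → V) (hF' : Fam (out R (Set.range P)) F') (p z)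
    (hz : ∀ q, F' q ≠ z) : ¬ (out R (Set.range P)).Adj (F' p) z := by
  intro hadj
  apply hfree
  obtain ⟨m, x, y⟩ := p
  have hFP : ∀ q, F' q ∉ Set.range P := by
    rintro ⟨m', x', y'⟩
    cases x'
    · exact (hF'.2 m' y' y').2.1
    · exact (hF'.2 m' y' y').2.2
  let σ : Fin (k + 1) × Bool × Bool → Fin (k + 1) × Bool × Bool :=
    fun q => (Equiv.swap 0 m q.1, xor x q.2.1, xor y q.2.2)
  have hσ : Function.Injective σ := by
    rintro ⟨m1, x1, y1⟩ ⟨m2, x2, y2⟩ h
    simp only [σ, Prod.mk.injEq] at h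
    obtain ⟨h1, h2, h3⟩ := h
    have h4 := (Equiv.swap 0 m).injective h1
    have h5 : x1 = x2 := by
      cases x <;> cases x1 <;> cases x2 <;> simp_all
    have h6 : y1 = y2 := by
      cases y <;> cases y1 <;> cases y2 <;> simp_all
    rw [h4, h5, h6]
  let f : HW t k → V := fun a => match a with
    | .inl q => P q
    | .inr (.inl q) => F' (σ q)
    | .inr (.inr _) => z
  have hf : Function.Injective f := by
    rintro (a | (a | a)) (b | (b | b)) h
    · rw [hP h]
    · exact absurd ⟨a, h⟩ (hFP (σ b))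
    · exact absurd ⟨a, h⟩ hadj.2.2
    · exact absurd ⟨b, h.symm⟩ (hFP (σ a))
    · rw [hσ (hF'.1 h)]
    · exact absurd h (hz _)
    · exact absurd ⟨b, h.symm⟩ hadj.2.2
    · exact absurd h.symm (hz _)
    · rfl
  have hcyc : ∀ m1 x1 y1 x2 y2, x1 ≠ x2 → R.Adj (F' (m1, x1, y1)) (F' (m1, x2, y2)) := by
    intro m1 x1 y1 x2 y2 hne
    cases x1 <;> cases x2
    · exact absurd rfl hne
    · exact (hF'.2 m1 y1 y2).1
    · exact (hF'.2 m1 y2 y1).1.symm
    · exact absurd rfl hne
  refine ⟨⟨⟨f, ?_⟩, hf⟩⟩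
  rintro (a | (a | a)) (b | (b | b)) h
  · obtain ⟨x1, i1⟩ := a
    obtain ⟨x2, i2⟩ := b
    have h' : x1 ≠ x2 := h
    cases x1 <;> cases x2
    · exact absurd rfl h'
    · exact hPa i1 i2
    · exact (hPa i2 i1).symm
    · exact absurd rfl h'
  · exact absurd h id
  · exact absurd h id
  · exact absurd h id
  · obtain ⟨h1, h2⟩ := (HG_cyc a b).1 h
    show R.Adj (F' (σ a)) (F' (σ b))
    simp only [σ]
    rw [h1]
    apply hcyc
    intro h3
    apply h2
    generalize a.2.1 = u1 at h3 ⊢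
    generalize b.2.1 = u2 at h3 ⊢
    cases x <;> cases u1 <;> cases u2 <;> simp_all
  · have h' : a = (0, false, false) := h
    subst h'
    show R.Adj (F' (σ (0, false, false))) z
    simp only [σ, Equiv.swap_apply_left, Bool.xor_false]
    exact hadj.1
  · exact absurd h id
  · have h' : b = (0, false, false) := h
    subst h'
    show R.Adj z (F' (σ (0, false, false)))
    simp only [σ, Equiv.swap_apply_left, Bool.xor_false]
    exact hadj.1.symm
  · exact absurd h id

end Pool.Agent.NS40.Core80
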