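import Pool.Agent.Helper80_NS.Core2

set_option autoImplicit false
open scoped Classical

namespace Pool.Agent.NS40.Core80

theorem no_K313 {V : Type} [Fintype V] (G : SimpleGraph V) (w v : V)
    (hw : ∀ x, G.Adj w x ↔ x = v) (c : Sym2 V → Fin 2) (P : Fin 2 → Set V) (S : Set V)
    (hPS : ∀ j x, x ∈ P j → x ∈ S) (X : Fin 2 → Finset V)
    (hX2 : ∀ j, ∀ x ∈ X j, ∀ y, y ∉ X j → ¬ (out (RG G w c j) (P j)).Adj x y)
    (hX3 : ∀ j, ∀ a1 a2 b1 b2 b3 : V, a1 ≠ a2 → b1 ≠ b2 → b1 ≠ b3 → b2 ≠ b3 → a1 ∉ X j →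
      a2 ∉ X j → b1 ∉ X j → b2 ∉ X j → b3 ∉ X j → (out (RG G w c j) (P j)).Adj a1 b1 →
      (out (RG G w c j) (P j)).Adj a1 b2 → (out (RG G w c j) (P j)).Adj a1 b3 →
      (out (RG G w c j) (P j)).Adj a2 b1 → (out (RG G w c j) (P j)).Adj a2 b2 →
      (out (RG G w c j) (P j)).Adj a2 b3 → False)
    (x : Fin 3 → V) (hx : Function.Injective x) (hxS : ∀ a, x a ∉ S)
    (hxX : ∀ a j, x a ∉ X j) (T : Finset V) (hTS : ∀ y ∈ T, y ∉ S)
    (hT : ∀ y ∈ T, ∀ a, G.Adj (x a) y) : T.card < 13 := by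
  by_contra hcon
  rw [not_lt] at hcon
  have hTw : ∀ y ∈ T, w ≠ y := by
    intro y hy he
    have h1 := (hT y hy 0).symm
    have h2 := (hT y hy 1).symm
    rw [← he, hw] at h1 h2
    have h3 := hx (h1.trans h2.symm)
    exact absurd h3 (by decide)
  have hxw : ∀ a, w ≠ x a := by
    intro a he
    have h1 : 1 < T.card := by omega
    obtain ⟨y1, hy1, y2, hy2, hne⟩ := Finset.one_lt_card.1 h1
    have h2 := hT y1 hy1 a
    have h3 := hT y2 hy2 a
    rw [← he, hw] at h2 h3
    exact hne (h2.trans h3.symm)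
  have hadj : ∀ y ∈ T, ∀ a j, c s(x a, y) = j → (out (RG G w c j) (P j)).Adj (x a) y := by
    intro y hy a j hj
    refine ⟨(RG_adj _ _ _ _ _ _).2 ⟨hT y hy a, hxw a, hTw y hy, hj⟩, ?_, ?_⟩
    · exact fun h => hxS a (hPS j _ h)
    · exact fun h => hTS y hy (hPS j _ h)
  have hyX : ∀ y ∈ T, ∀ a j, c s(x a, y) = j → y ∉ X j := by
    intro y hy a j hj h
    exact hX2 j y h (x a) (hxX a j) (hadj y hy a j hj).symm
  have hpair : ∀ j a b, a ≠ b → ∀ y1 ∈ T, ∀ y2 ∈ T, ∀ y3 ∈ T, y1 ≠ y2 → y1 ≠ y3 → y2 ≠ y3 →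
      c s(x a, y1) = j → c s(x a, y2) = j → c s(x a, y3) = j →
      c s(x b, y1) = j → c s(x b, y2) = j → c s(x b, y3) = j → False := by
    intro j a b hab y1 h1 y2 h2 y3 h3 h12 h13 h23 a1 a2 a3 b1 b2 b3
    exact hX3 j (x a) (x b) y1 y2 y3 (fun h => hab (hx h)) h12 h13 h23 (hxX a j) (hxX b j)
      (hyX y1 h1 a j a1) (hyX y2 h2 a j a2) (hyX y3 h3 a j a3)
      (hadj y1 h1 a j a1) (hadj y2 h2 a j a2) (hadj y3 h3 a j a3)
      (hadj y1 h1 b j b1) (hadj y2 h2 b j b2) (hadj y3 h3 b j b3)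
  let f : V → Fin 3 × Fin 2 := fun y =>
    if c s(x 0, y) = c s(x 1, y) then (0, c s(x 0, y))
    else if c s(x 0, y) = c s(x 2, y) then (1, c s(x 0, y)) else (2, c s(x 1, y))
  obtain ⟨⟨a, j⟩, -, hfib⟩ := Finset.exists_lt_card_fiber_of_mul_lt_card_of_maps_to
    (s := T) (t := (Finset.univ : Finset (Fin 3 × Fin 2))) (f := f) (n := 2)
    (fun _ _ => Finset.mem_univ _) (by
      have h1 : (Finset.univ : Finset (Fin 3 × Fin 2)).card = 6 := rfl
      rw [h1]
      omega)
  obtain ⟨y1, hy1, y2, hy2, y3, hy3, h12, h13, h23⟩ := Finset.two_lt_card.1 hfib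
  rw [Finset.mem_filter] at hy1 hy2 hy3
  have key : ∀ y, f y = (a, j) →
      (a = 0 ∧ c s(x 0, y) = j ∧ c s(x 1, y) = j) ∨
      (a = 1 ∧ c s(x 0, y) = j ∧ c s(x 2, y) = j) ∨
      (a = 2 ∧ c s(x 1, y) = j ∧ c s(x 2, y) = j) := by
    intro y hy
    simp only [f] at hy
    by_cases h1 : c s(x 0, y) = c s(x 1, y)
    · rw [if_pos h1, Prod.mk.injEq] at hy
      exact Or.inl ⟨hy.1.symm, hy.2, h1 ▸ hy.2⟩
    · rw [if_neg h1] at hy
      by_cases h2 : c s(x 0, y) = c s(x 2, y)
      · rw [if_pos h2, Prod.mk.injEq] at hy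
        exact Or.inr (Or.inl ⟨hy.1.symm, hy.2, h2 ▸ hy.2⟩)
      · rw [if_neg h2, Prod.mk.injEq] at hy
        refine Or.inr (Or.inr ⟨hy.1.symm, hy.2, ?_⟩)
        rw [← hy.2]
        revert h1 h2
        generalize c s(x 0, y) = u0
        generalize c s(x 1, y) = u1
        generalize c s(x 2, y) = u2
        revert u0 u1 u2
        decide
  rcases key y1 hy1.2 with ⟨e1, p1, q1⟩ | ⟨e1, p1, q1⟩ | ⟨e1, p1, q1⟩ <;>
    rcases key y2 hy2.2 with ⟨e2, p2, q2⟩ | ⟨e2, p2, q2⟩ | ⟨e2, p2, q2⟩ <;>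
    rcases key y3 hy3.2 with ⟨e3, p3, q3⟩ | ⟨e3, p3, q3⟩ | ⟨e3, p3, q3⟩ <;>
    first
      | exact absurd (e1.symm.trans e2) (by decide)
      | exact absurd (e1.symm.trans e3) (by decide)
      | exact hpair j 0 1 (by decide) y1 hy1.1 y2 hy2.1 y3 hy3.1 h12 h13 h23 p1 p2 p3 q1 q2 q3
      | exact hpair j 0 2 (by decide) y1 hy1.1 y2 hy2.1 y3 hy3.1 h12 h13 h23 p1 p2 p3 q1 q2 q3
      | exact hpair j 1 2 (by decide) y1 hy1.1 y2 hy2.1 y3 hy3.1 h12 h13 h23 p1 p2 p3 q1 q2 q3

theorem closed_core (t : ℕ) (ht : 13 ≤ t)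
    (hJ : ∀ (W : Type) [Fintype W], Fintype.card W ≤ 32 * t + 8 → ∃ J : SimpleGraph W,
      (∀ x x' y y' : W, x ≠ x' → y ≠ y' → J.Adj x y → J.Adj x y' → J.Adj x' y → J.Adj x' y' →
        False) ∧
      ∀ A B : Finset W, Disjoint A B → t - 2 ≤ A.card → t - 2 ≤ B.card →
        ∃ a ∈ A, ∃ b ∈ B, J.Adj a b)
    (V : Type) [Fintype V] (G : SimpleGraph V) (w v : V)
    (hw : ∀ x, G.Adj w x ↔ x = v) (c : Sym2 V → Fin 2)
    (hfree : ∀ i, ¬ (HG t (4 * t)).IsContained (SimpleGraph.fromEdgeSet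
      {e | e ∈ G.edgeSet ∧ w ∉ e ∧ c e = i})) :
    ∃ c' : Sym2 V → Fin 2, ∀ i, ¬ (HG t (4 * t)).IsContained
        (SimpleGraph.fromEdgeSet {e | e ∈ G.edgeSet ∧ c' e = i}) := by
  by_contra hno
  have hR : ∀ c' : Sym2 V → Fin 2, ∃ i, (HG t (4 * t)).IsContained
      (SimpleGraph.fromEdgeSet {e | e ∈ G.edgeSet ∧ c' e = i}) := by
    intro c'
    by_contra h
    rw [not_exists] at h
    exact hno ⟨c', h⟩
  have hd := fun j => data t (4 * t) (by omega) G w v hw c hfree hR j
  choose P F hP hPF hPa hF using hd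
  let PS : Fin 2 → Set V := fun j => Set.range (P j)
  have hFam : ∀ j, Fam (out (RG G w c j) (PS j)) (F j) := by
    intro j
    refine ⟨(hF j).1, fun m y y' => ⟨(hF j).2 m y y', ?_, ?_⟩⟩
    · rintro ⟨p, hp⟩
      exact hPF j p _ hp
    · rintro ⟨p, hp⟩
      exact hPF j p _ hp
  have hs := fun j => struct (out (RG G w c j) (PS j)) (4 * t) (by omega) (F j) (hFam j)
    (fun F' hF' p z hz => hcl_of_free t (4 * t) (RG G w c j) (hfree j) (P j) (hP j) (hPa j)
      F' hF' p z hz)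
  choose X hX1 hX2 hX3 using hs
  let S : Finset V := Finset.univ.image (P 0) ∪ Finset.univ.image (P 1)
  have hSc : S.card ≤ 4 * t := by
    refine (Finset.card_union_le _ _).trans ?_
    have h1 := Finset.card_image_le (s := (Finset.univ : Finset (Bool × Fin t))) (f := P 0)
    have h2 := Finset.card_image_le (s := (Finset.univ : Finset (Bool × Fin t))) (f := P 1)
    have h3 : (Finset.univ : Finset (Bool × Fin t)).card = 2 * t := by
      rw [Finset.card_univ, Fintype.card_prod, Fintype.card_bool, Fintype.card_fin]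
    rw [h3] at h1 h2
    omega
  have hPS : ∀ j x, x ∈ PS j → x ∈ (S : Set V) := by
    rintro j x ⟨p, rfl⟩
    have hj : j = 0 ∨ j = 1 := (show ∀ j : Fin 2, j = 0 ∨ j = 1 by decide) j
    rcases hj with rfl | rfl
    · exact Finset.mem_coe.2 (Finset.mem_union_left _
        (Finset.mem_image.2 ⟨p, Finset.mem_univ _, rfl⟩))
    · exact Finset.mem_coe.2 (Finset.mem_union_right _
        (Finset.mem_image.2 ⟨p, Finset.mem_univ _, rfl⟩))
  let W1 : Finset V := (X 0 ∪ X 1) \ S
  have hW1 : W1.card ≤ 32 * t + 8 := by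
    have h1 : W1.card ≤ (X 0 ∪ X 1).card := Finset.card_le_card Finset.sdiff_subset
    have h2 := Finset.card_union_le (X 0) (X 1)
    have h3 := hX1 0
    have h4 := hX1 1
    omega
  have hnX : ∀ x, x ∉ S → x ∉ W1 → ∀ j, x ∉ X j := by
    intro x hxS hxW j hxj
    apply hxW
    rw [Finset.mem_sdiff]
    refine ⟨?_, hxS⟩
    have hj : j = 0 ∨ j = 1 := (show ∀ j : Fin 2, j = 0 ∨ j = 1 by decide) j
    rcases hj with rfl | rfl
    · exact Finset.mem_union_left _ hxj
    · exact Finset.mem_union_right _ hxj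
  have hK : ∀ x : Fin 3 → V, Function.Injective x → (∀ a, x a ∉ S) → (∀ a, x a ∉ W1) →
      ∀ T : Finset V, (∀ y ∈ T, y ∉ S) → (∀ y ∈ T, ∀ a, G.Adj (x a) y) → T.card < 13 := by
    intro x hx hxS hxW T hTS hT
    exact no_K313 G w v hw c PS (S : Set V) hPS X hX2 hX3 x hx
      (fun a h => hxS a (Finset.mem_coe.1 h)) (fun a j => hnX _ (hxS a) (hxW a) j) T
      (fun y hy h => hTS y hy (Finset.mem_coe.1 h)) hT
  obtain ⟨J, hJ1, hJ2⟩ := hJ {x // x ∈ W1} (by rw [Fintype.card_coe]; exact hW1)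
  obtain ⟨i, ⟨φ⟩⟩ := hR (fun e => if (∃ x ∈ e, x ∈ S) ∨
    (∃ x y : {x // x ∈ W1}, J.Adj x y ∧ e = s(x.1, y.1)) then 0 else 1)
  have hφ : ∀ x y, (HG t (4 * t)).Adj x y → G.Adj (φ x) (φ y) ∧
      (if (∃ z ∈ s(φ x, φ y), z ∈ S) ∨
    (∃ a b : {x // x ∈ W1}, J.Adj a b ∧ s(φ x, φ y) = s(a.1, b.1)) then (0 : Fin 2) else 1) = i := by
    intro x y hxy
    have h1 := φ.toHom.map_adj hxy
    rw [SimpleGraph.fromEdgeSet_adj] at h1
    exact ⟨h1.1.1, h1.1.2⟩
  by_cases hi : i = 0
  · -- colour zero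
    subst hi
    have hm : ∀ m : Fin (4 * t + 1), ∃ q : Bool × Bool, φ (.inr (.inl (m, q))) ∈ S := by
      intro m
      by_contra hno2
      rw [not_exists] at hno2
      have hJe : ∀ y y', ∃ a b : {x // x ∈ W1}, J.Adj a b ∧
          φ (.inr (.inl (m, false, y))) = a.1 ∧ φ (.inr (.inl (m, true, y'))) = b.1 := by
        intro y y'
        obtain ⟨-, h2⟩ := hφ (.inr (.inl (m, false, y))) (.inr (.inl (m, true, y')))
          (by rw [HG_cyc]; simp)
        by_cases h3 : (∃ z ∈ s(φ (.inr (.inl (m, false, y))), φ (.inr (.inl (m, true, y')))), z ∈ S) ∨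
            (∃ a b : {x // x ∈ W1}, J.Adj a b ∧
              s(φ (.inr (.inl (m, false, y))), φ (.inr (.inl (m, true, y')))) = s(a.1, b.1))
        · rcases h3 with ⟨z, hz1, hz2⟩ | ⟨a, b, hab, he⟩
          · exfalso
            rw [Sym2.mem_iff] at hz1
            rcases hz1 with rfl | rfl
            · exact hno2 _ hz2
            · exact hno2 _ hz2
          · rw [Sym2.eq_iff] at he
            rcases he with ⟨h4, h5⟩ | ⟨h4, h5⟩
            · exact ⟨a, b, hab, h4, h5⟩
            · exact ⟨b, a, hab.symm, h4, h5⟩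
        · rw [if_neg h3] at h2
          exact absurd h2 (by decide)
      obtain ⟨a1, b1, h11, ha1, hb1⟩ := hJe false false
      obtain ⟨a2, b2, h12, ha2, hb2⟩ := hJe false true
      obtain ⟨a3, b3, h21, ha3, hb3⟩ := hJe true false
      obtain ⟨a4, b4, h22, ha4, hb4⟩ := hJe true true
      have e1 : a2 = a1 := Subtype.ext (ha2.symm.trans ha1)
      have e2 : b3 = b1 := Subtype.ext (hb3.symm.trans hb1)
      have e3 : a4 = a3 := Subtype.ext (ha4.symm.trans ha3)
      have e4 : b4 = b2 := Subtype.ext (hb4.symm.trans hb2)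
      rw [e1] at h12
      rw [e2] at h21
      rw [e3, e4] at h22
      apply hJ1 a1 a3 b1 b2 _ _ h11 h12 h21 h22
      · intro h
        rw [h, ← ha3] at ha1
        have h3 := φ.injective ha1
        simp at h3
      · intro h
        rw [h, ← hb2] at hb1
        have h3 := φ.injective hb1
        simp at h3
    choose q hq using hm
    have hle : (Finset.univ : Finset (Fin (4 * t + 1))).card ≤ S.card := by
      apply Finset.card_le_card_of_injOn (fun m => φ (.inr (.inl (m, q m))))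
      · intro m _
        exact hq m
      · intro m _ m' _ h
        have h3 := Sum.inl_injective (Sum.inr_injective (φ.injective h))
        exact congrArg Prod.fst h3
    rw [Finset.card_univ, Fintype.card_fin] at hle
    omega
  · -- colour one
    have hnb : ∀ x y, (HG t (4 * t)).Adj x y → G.Adj (φ x) (φ y) ∧ φ x ∉ S ∧ φ y ∉ S ∧
        ∀ a b : {x // x ∈ W1}, J.Adj a b → φ x = a.1 → φ y = b.1 → False := by
      intro x y hxy
      obtain ⟨h1, h2⟩ := hφ x y hxy
      have h3 : ¬ ((∃ z ∈ s(φ x, φ y), z ∈ S) ∨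
          (∃ a b : {x // x ∈ W1}, J.Adj a b ∧ s(φ x, φ y) = s(a.1, b.1))) := by
        intro h
        rw [if_pos h] at h2
        exact hi h2.symm
      rw [not_or] at h3
      refine ⟨h1, ?_, ?_, ?_⟩
      · exact fun h => h3.1 ⟨_, Sym2.mem_mk_left _ _, h⟩
      · exact fun h => h3.1 ⟨_, Sym2.mem_mk_right _ _, h⟩
      · intro a b hab ha hb
        exact h3.2 ⟨a, b, hab, by rw [ha, hb]⟩
    let A : Bool → Finset V := fun b => Finset.univ.image (fun r : Fin t => φ (.inl (b, r)))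
    have hAc : ∀ b, (A b).card = t := by
      intro b
      rw [Finset.card_image_of_injective, Finset.card_univ, Fintype.card_fin]
      intro r r' h
      have h3 := Sum.inl_injective (φ.injective h)
      exact congrArg Prod.snd h3
    have hAadj : ∀ b b', b ≠ b' → ∀ x ∈ A b, ∀ y ∈ A b', G.Adj x y ∧ x ∉ S ∧ y ∉ S ∧
        ∀ a b : {x // x ∈ W1}, J.Adj a b → x = a.1 → y = b.1 → False := by
      intro b b' hbb x hx y hy
      obtain ⟨r, -, rfl⟩ := Finset.mem_image.1 hx
      obtain ⟨r', -, rfl⟩ := Finset.mem_image.1 hy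
      exact hnb _ _ (by rw [HG_inl]; exact hbb)
    have hAS : ∀ b, ∀ x ∈ A b, x ∉ S := by
      intro b x hx
      obtain ⟨r, -, rfl⟩ := Finset.mem_image.1 hx
      obtain ⟨y, hy⟩ := HG_iso t (4 * t) (.inl (b, r))
      exact (hnb _ _ hy).2.1
    have hAW : ∀ b, t - 2 ≤ ((A b).filter (fun x => x ∈ W1)).card := by
      intro b
      have h1 := Finset.card_filter_add_card_filter_not (s := A b) (fun x => x ∈ W1)
      rw [hAc] at h1
      have h2 : ((A b).filter (fun x => x ∉ W1)).card ≤ 2 := by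
        by_contra hcon
        rw [not_le] at hcon
        obtain ⟨y1, hy1, y2, hy2, y3, hy3, h12, h13, h23⟩ := Finset.two_lt_card.1 hcon
        rw [Finset.mem_filter] at hy1 hy2 hy3
        have h3 := hK ![y1, y2, y3] (by
            intro a a' haa
            fin_cases a <;> fin_cases a' <;> simp at haa ⊢ <;>
              first
                | exact h12 haa | exact h12 haa.symm | exact h13 haa | exact h13 haa.symm
                | exact h23 haa | exact h23 haa.symm) (by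
            intro a
            fin_cases a
            · exact hAS b _ hy1.1
            · exact hAS b _ hy2.1
            · exact hAS b _ hy3.1) (by
            intro a
            fin_cases a
            · exact hy1.2
            · exact hy2.2
            · exact hy3.2) (A (!b)) (hAS (!b)) (by
            intro y hy a
            fin_cases a
            · exact (hAadj b (!b) (by simp) _ hy1.1 y hy).1
            · exact (hAadj b (!b) (by simp) _ hy2.1 y hy).1
            · exact (hAadj b (!b) (by simp) _ hy3.1 y hy).1)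
        rw [hAc] at h3
        omega
      omega
    obtain ⟨a, ha, b, hb, hab⟩ := hJ2 ((A false).subtype (fun x => x ∈ W1))
      ((A true).subtype (fun x => x ∈ W1)) (by
        rw [Finset.disjoint_left]
        intro x hx hx'
        rw [Finset.mem_subtype] at hx hx'
        exact (hAadj false true (by simp) _ hx _ hx').1.ne rfl)
      (by rw [Finset.card_subtype]; exact hAW false)
      (by rw [Finset.card_subtype]; exact hAW true)
    rw [Finset.mem_subtype] at ha hb
    exact (hAadj false true (by simp) _ ha _ hb).2.2.2 a b hab rfl rfl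

end Pool.Agent.NS40.Core80
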