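import Pool.Agent.Helper80_NS.Core3
import Pool.Agent.Helper80_NS.Wrap
import Pool.Agent.Helper27_NSR.J

set_option autoImplicit false
open scoped Classical

namespace Pool.Agent.NS40.Main80

theorem main :
    ¬ (∀ (n : ℕ) (H : SimpleGraph (Fin n)), 0 < n → H.Colorable 2 → (∀ v, ∃ w, H.Adj v w) →
      (∃ (V : Type) (_ : Fintype V) (G : SimpleGraph V),
        (∀ c : Sym2 V → Fin 2, ∃ i : Fin 2,
          H.IsContained (SimpleGraph.fromEdgeSet {e | e ∈ G.edgeSet ∧ c e = i})) ∧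
        (∀ G' : G.Subgraph, G' ≠ ⊤ →
          ¬ ∀ c : Sym2 G'.verts → Fin 2, ∃ i : Fin 2,
            H.IsContained (SimpleGraph.fromEdgeSet {e | e ∈ G'.coe.edgeSet ∧ c e = i})) ∧
        G.minDegree = 2 * H.minDegree - 1) ∧
      (∀ (V : Type) (_ : Fintype V) (G : SimpleGraph V),
        (∀ c : Sym2 V → Fin 2, ∃ i : Fin 2,
          H.IsContained (SimpleGraph.fromEdgeSet {e | e ∈ G.edgeSet ∧ c e = i})) →
        (∀ G' : G.Subgraph, G' ≠ ⊤ →
          ¬ ∀ c : Sym2 G'.verts → Fin 2, ∃ i : Fin 2,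
            H.IsContained (SimpleGraph.fromEdgeSet {e | e ∈ G'.coe.edgeSet ∧ c e = i})) →
        2 * H.minDegree - 1 ≤ G.minDegree)) := by
  have ht : (13 : ℕ) ≤ 34000 := by norm_num
  have hJ : ∀ (W : Type) [Fintype W], Fintype.card W ≤ 32 * 34000 + 8 → ∃ J : SimpleGraph W,
      (∀ x x' y y' : W, x ≠ x' → y ≠ y' → J.Adj x y → J.Adj x y' → J.Adj x' y → J.Adj x' y' →
        False) ∧
      ∀ A B : Finset W, Disjoint A B → 34000 - 2 ≤ A.card → 34000 - 2 ≤ B.card →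
        ∃ a ∈ A, ∃ b ∈ B, J.Adj a b := fun W _ hW => Pool.Agent.NSR.H27.tool W hW
  generalize (34000 : ℕ) = t at ht hJ
  have hne : Nonempty (Core80.HW t (4 * t)) := ⟨.inr (.inr ())⟩
  exact Wrap.wrap (Core80.HG t (4 * t)) (Core80.HG_colorable t (4 * t))
    (Core80.HG_iso t (4 * t)) (Core80.HG_leaf_ex t (4 * t))
    (fun V _ G w v hw c hc => Core80.closed_core t ht hJ V G w v hw c hc)

end Pool.Agent.NS40.Main80
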